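import Pool.Agent.Helper60.CP.Stm2
import Pool.Agent.Helper60.CP.Gen
import Pool.Agent.Helper60.CP.M

/-!
# `U(n)`-invariant metrics on `S^(2n)`: existence of the minimum of the action defect
-/

set_option autoImplicit false

open Real Set MeasureTheory Filter Topology
open scoped ContDiff

namespace Pool.Agent.Helper44.CP.M2

open Pool.Agent.H206R2.Rot2 (Veff well actW)
open Pool.Agent.Helper60.CP
open Pool.Agent.Helper60.CP.M (continuous_KK KK_nonneg)
open Pool.Agent.Helper60.CP.Gen (Base well_gen near_left near_right)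

section
variable {L : ℝ} {f h : ℝ → ℝ} (hf : IsProfileS L f h)
include hf

theorem base : Base L f h := ⟨hf.smooth_f, hf.smooth_h, hf.f_pos, hf.h_pos⟩

theorem f_zero : f 0 = 0 := by
  have := hf.f_odd 0
  simp at this
  linarith

theorem f_L : f L = 0 := by
  have := hf.f_odd_L 0
  simp at this
  linarith

theorem h_zero : h 0 = 0 := by
  have := hf.h_odd 0
  simp at this
  linarith

theorem h_L : h L = 0 := by
  have := hf.h_odd_L 0
  simp at this
  linarith

/-- the potential is below one at a point where both profiles are above `R` -/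
theorem V_lt {c₁ c₂ R s₀ : ℝ} (hR : 0 < R) (hfs : R < f s₀) (hhs : R < h s₀)
    (hK : KK (c₁, c₂) < R) : Veff f h c₁ c₂ s₀ < 1 := by
  have hf0 : 0 < f s₀ := hR.trans hfs
  have hh0 : 0 < h s₀ := hR.trans hhs
  have h1 : (c₁ / f s₀) ^ 2 ≤ c₁ ^ 2 / R ^ 2 := by
    rw [div_pow]
    exact div_le_div_of_nonneg_left (sq_nonneg _) (by positivity)
      (pow_le_pow_left₀ hR.le hfs.le 2)
  have h2 : (c₂ / h s₀) ^ 2 ≤ c₂ ^ 2 / R ^ 2 := by
    rw [div_pow]
    exact div_le_div_of_nonneg_left (sq_nonneg _) (by positivity)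
      (pow_le_pow_left₀ hR.le hhs.le 2)
  have h3 : c₁ ^ 2 + c₂ ^ 2 < R ^ 2 := by
    unfold KK at hK
    simp only at hK
    have := (Real.sqrt_lt' hR).1 hK
    exact this
  have h4 : c₁ ^ 2 / R ^ 2 + c₂ ^ 2 / R ^ 2 < 1 := by
    rw [← add_div, div_lt_one (by positivity)]
    exact h3
  unfold Veff
  linarith

theorem well_spec {c₁ c₂ s : ℝ} (h1 : 0 ≤ c₁) (h2 : 0 ≤ c₂) (h12 : 0 < c₁ ∨ 0 < c₂)
    (hs0 : 0 < s) (hsL : s < L) (hs : Veff f h c₁ c₂ s < 1) :
    ∃ p q, 0 < p ∧ p < s ∧ s < q ∧ q < L ∧ Veff f h c₁ c₂ p = 1 ∧ Veff f h c₁ c₂ q = 1 ∧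
      well L (Veff f h c₁ c₂) s = Ioo p q ∧ ∀ x ∈ Ioo p q, Veff f h c₁ c₂ x < 1 := by
  have hVc := Gen.cont_V (base hf) (c₁ := c₁) (c₂ := c₂)
  refine well_gen hVc hs0 hsL hs ?_ ?_
  · rcases h12 with hc | hc
    · obtain ⟨u, hu0, hus, hu1⟩ := near_left hf.smooth_f.continuous (f_zero hf) hf.f_pos hs0 hsL hc
      refine ⟨u, hu0, hus, ?_⟩
      unfold Veff
      nlinarith [sq_nonneg (c₂ / h u)]
    · obtain ⟨u, hu0, hus, hu1⟩ := near_left hf.smooth_h.continuous (h_zero hf) hf.h_pos hs0 hsL hc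
      refine ⟨u, hu0, hus, ?_⟩
      unfold Veff
      nlinarith [sq_nonneg (c₁ / f u)]
  · rcases h12 with hc | hc
    · obtain ⟨u, hu0, hus, hu1⟩ := near_right hf.smooth_f.continuous (f_L hf) hf.f_pos hs0 hsL hc
      refine ⟨u, hu0, hus, ?_⟩
      unfold Veff
      nlinarith [sq_nonneg (c₂ / h u)]
    · obtain ⟨u, hu0, hus, hu1⟩ := near_right hf.smooth_h.continuous (h_L hf) hf.h_pos hs0 hsL hc
      refine ⟨u, hu0, hus, ?_⟩
      unfold Veff
      nlinarith [sq_nonneg (c₁ / f u)]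

end

theorem t2_M : S2_M := by
  intro L R s₀ f h hf hR hs hfs hhs hRL hEf hEh hneg
  have hπ := Real.pi_pos
  -- the infimum
  set E : Set ℝ := Ds L R f h s₀ '' Dsk R with hE
  have hbdd : BddBelow E := by
    refine ⟨-(2 * π * R), ?_⟩
    rintro _ ⟨c, hc, rfl⟩
    have h0 := Gen.actW_nonneg L (Veff f h c.1 c.2) s₀
    have hK := KK_nonneg c
    unfold Ds
    nlinarith
  obtain ⟨c₁, hc₁, hc₁'⟩ := hneg
  have hne : E.Nonempty := ⟨_, c₁, hc₁, rfl⟩
  set m := sInf E with hm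
  have hmneg : m < 0 := by
    have : m ≤ Ds L R f h s₀ c₁ := csInf_le hbdd ⟨c₁, hc₁, rfl⟩
    linarith
  obtain ⟨u, -, hu, huE⟩ := exists_seq_tendsto_sInf hne hbdd
  choose d hdT hdu using huE
  have hKle1 : ∀ c : ℝ × ℝ, 0 < c.1 → c.1 ≤ KK c := by
    intro c hc
    unfold KK
    exact Real.le_sqrt_of_sq_le (by nlinarith [sq_nonneg c.2])
  have hKle2 : ∀ c : ℝ × ℝ, 0 < c.2 → c.2 ≤ KK c := by
    intro c hc
    unfold KK
    exact Real.le_sqrt_of_sq_le (by nlinarith [sq_nonneg c.1])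
  -- subsequence
  have hdK : ∀ n, d n ∈ Icc ((0 : ℝ), (0 : ℝ)) (R, R) := by
    intro n
    obtain ⟨h1, h2, h3⟩ := hdT n
    have hK1 := hKle1 (d n) h1
    have hK2 := hKle2 (d n) h2
    exact ⟨⟨h1.le, h2.le⟩, ⟨by simp only; linarith, by simp only; linarith⟩⟩
  obtain ⟨c₀, hc₀, φ, hφ, hlim⟩ := isCompact_Icc.tendsto_subseq hdK
  set c : ℕ → ℝ × ℝ := d ∘ φ with hcdef
  have hcT : ∀ n, c n ∈ Dsk R := fun n => hdT (φ n)
  have hD : Tendsto (fun n => Ds L R f h s₀ (c n)) atTop (𝓝 m) := by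
    have : (fun n => Ds L R f h s₀ (c n)) = u ∘ φ := by
      funext n; exact hdu (φ n)
    rw [this]
    exact hu.comp hφ.tendsto_atTop
  have eK : Tendsto (fun n => KK (c n)) atTop (𝓝 (KK c₀)) := (continuous_KK.tendsto c₀).comp hlim
  have h01 : 0 ≤ c₀.1 := hc₀.1.1
  have h02 : 0 ≤ c₀.2 := hc₀.1.2
  have hsum : KK c₀ ≤ R := le_of_tendsto eK (Eventually.of_forall fun n => (hcT n).2.2.le)
  have hDW : Tendsto (fun n => actW L (Veff f h (c n).1 (c n).2) s₀) atTop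
      (𝓝 (m + 2 * π * (R - KK c₀))) := by
    have e := hD.add ((tendsto_const_nhds (x := R)).sub eK |>.const_mul (2 * π))
    refine e.congr fun n => ?_
    unfold Ds
    ring
  -- the circle `K = R`
  have hsum' : KK c₀ < R := by
    rcases lt_or_eq_of_le hsum with hh | hh
    · exact hh
    exfalso
    have := ge_of_tendsto hDW (Eventually.of_forall fun n =>
      Gen.actW_nonneg L (Veff f h (c n).1 (c n).2) s₀)
    rw [hh] at this
    simp at this
    linarith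
  by_cases h00 : c₀.1 = 0 ∧ c₀.2 = 0
  · -- the origin
    exfalso
    obtain ⟨h10, h20⟩ := h00
    have key := Gen.lsc (s := fun _ => s₀) (base hf) hlim hDW (p := 0) (q := L) (x' := s₀)
      (y' := s₀) le_rfl le_rfl (fun r _ => by rw [h10, h20]; unfold Veff; simp) hs.1 le_rfl hs.2
      (Eventually.of_forall fun n => ⟨le_rfl, le_rfl⟩)
    have hK0 : KK c₀ = 0 := by unfold KK; rw [h10, h20]; simp
    have hint : ∫ r in Ioo 0 L, √(1 - Veff f h c₀.1 c₀.2 r) = L := by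
      have e : (fun r => √(1 - Veff f h c₀.1 c₀.2 r)) = fun _ => (1 : ℝ) := by
        funext r; unfold Veff; rw [h10, h20]; simp
      rw [e, integral_const]
      simp [hf.pos.le]
    rw [hint, hK0] at key
    linarith
  have h12 : 0 < c₀.1 ∨ 0 < c₀.2 := by
    by_contra hcon
    push Not at hcon
    exact h00 ⟨le_antisymm hcon.1 h01, le_antisymm hcon.2 h02⟩
  have hVs : Veff f h c₀.1 c₀.2 s₀ < 1 := V_lt hf hR hfs hhs hsum'
  obtain ⟨p, q, hp, hps, hsq, hq, -, -, hw, hin⟩ := well_spec hf h01 h02 h12 hs.1 hs.2 hVs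
  have key := Gen.lsc (s := fun _ => s₀) (base hf) hlim hDW (p := p) (q := q) (x' := s₀)
    (y' := s₀) hp.le hq.le hin hps le_rfl hsq (Eventually.of_forall fun n => ⟨le_rfl, le_rfl⟩)
  have hle : actW L (Veff f h c₀.1 c₀.2) s₀ ≤ m + 2 * π * (R - KK c₀) := by
    unfold actW
    rw [hw]
    exact key
  rcases eq_or_lt_of_le h01 with h01' | h01'
  · -- the edge `c₁ = 0`
    exfalso
    have h10 : c₀.1 = 0 := h01'.symm
    have h2 : 0 < c₀.2 := by
      rcases h12 with h | h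
      · rw [h10] at h; exact absurd h (lt_irrefl _)
      · exact h
    have hK0 : KK c₀ = c₀.2 := by
      unfold KK; rw [h10]
      rw [show (0 : ℝ) ^ 2 + c₀.2 ^ 2 = c₀.2 ^ 2 by ring, Real.sqrt_sq h2.le]
    have hV : Veff f h c₀.1 c₀.2 = fun x => (c₀.2 / h x) ^ 2 := by
      funext r; unfold Veff; rw [h10]; simp
    have := hEh c₀.2 ⟨h2, by rw [← hK0]; exact hsum'⟩
    rw [hV, hK0] at hle
    linarith
  rcases eq_or_lt_of_le h02 with h02' | h02'
  · -- the edge `c₂ = 0`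
    exfalso
    have h20 : c₀.2 = 0 := h02'.symm
    have hK0 : KK c₀ = c₀.1 := by
      unfold KK; rw [h20]
      rw [show c₀.1 ^ 2 + (0 : ℝ) ^ 2 = c₀.1 ^ 2 by ring, Real.sqrt_sq h01'.le]
    have hV : Veff f h c₀.1 c₀.2 = fun x => (c₀.1 / f x) ^ 2 := by
      funext r; unfold Veff; rw [h20]; simp
    have := hEf c₀.1 ⟨h01', by rw [← hK0]; exact hsum'⟩
    rw [hV, hK0] at hle
    linarith
  -- an interior point: the minimum
  have hc₀T : c₀ ∈ Dsk R := ⟨h01', h02', hsum'⟩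
  have hle' : Ds L R f h s₀ c₀ ≤ m := by
    unfold Ds
    linarith
  refine ⟨c₀, hc₀T, lt_of_le_of_lt hle' hmneg, ?_⟩
  intro c' hc'
  exact hle'.trans (csInf_le hbdd ⟨c', hc', rfl⟩)

end Pool.Agent.Helper44.CP.M2

namespace Pool.Agent.Helper44.CP

theorem t2_M : Pool.Agent.Helper60.CP.S2_M := M2.t2_M

end Pool.Agent.Helper44.CP


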