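import Pool.Agent.Helper60.CP.Stm

/-!
# `ℂP^n` project: part S, a continuous selection of a point deep in a well
-/

set_option autoImplicit false

open Real Set MeasureTheory Filter Topology
open scoped ContDiff

namespace Pool.Agent.Helper44.CP

open Pool.Agent.Helper60.CP
open Pool.Agent.H206R2.Rot2 (Veff well actW)

/-- inverse of a strictly decreasing function on an interval, extended to the line -/
lemma exists_inv {f : ℝ → ℝ} (hf : Continuous f) {a b : ℝ} (hab : a ≤ b)
    (hanti : StrictAntiOn f (Icc a b)) :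
    ∃ g : ℝ → ℝ, Continuous g ∧ ∀ v, f b ≤ v → v ≤ f a → g v ∈ Icc a b ∧ f (g v) = v := by
  obtain ⟨cl, hcl⟩ : ∃ cl : ℝ → ℝ, cl = fun x => max a (min b x) := ⟨_, rfl⟩
  have hclc : Continuous cl := by
    rw [hcl]
    exact continuous_const.max (continuous_const.min continuous_id)
  have hmem : ∀ x, cl x ∈ Icc a b := by
    intro x
    rw [hcl]
    exact ⟨le_max_left _ _, max_le hab (min_le_left _ _)⟩
  have hid : ∀ x ∈ Icc a b, cl x = x := by
    intro x hx
    rw [hcl]
    simp only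
    rw [min_eq_right hx.2, max_eq_right hx.1]
  have hmono : ∀ x y, x < y → cl x ≤ cl y := by
    intro x y hxy
    rw [hcl]
    exact max_le_max le_rfl (min_le_min le_rfl hxy.le)
  have hlip : ∀ x y, x < y → cl y - cl x ≤ y - x := by
    intro x y hxy
    rw [hcl]
    simp only [max_def, min_def]
    split_ifs <;> linarith
  obtain ⟨F, hF⟩ : ∃ F : ℝ → ℝ, F = fun x => -f (cl x) + (x - cl x) := ⟨_, rfl⟩
  have hFc : Continuous F := by
    rw [hF]
    exact ((hf.comp hclc).neg).add (continuous_id.sub hclc)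
  have hFm : StrictMono F := by
    intro x y hxy
    rw [hF]
    simp only
    have h1 := hmono x y hxy
    have h2 := hlip x y hxy
    rcases h1.lt_or_eq with h3 | h3
    · have h4 := hanti (hmem x) (hmem y) h3
      linarith
    · rw [h3]
      linarith
  have hFs : Function.Surjective F := by
    refine hFc.surjective ?_ ?_
    · refine tendsto_atTop_mono (f := fun x => x + (-f a - b)) ?_
        (tendsto_atTop_add_const_right _ _ tendsto_id)
      intro x
      rw [hF]
      simp only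
      have h1 := (hmem x).2
      have h2 : f (cl x) ≤ f a := hanti.antitoneOn ⟨le_rfl, hab⟩ (hmem x) (hmem x).1
      linarith
    · refine tendsto_atBot_mono (f := fun x => x + (-f b - a)) ?_
        (tendsto_atBot_add_const_right _ _ tendsto_id)
      intro x
      rw [hF]
      simp only
      have h1 := (hmem x).1
      have h2 : f b ≤ f (cl x) := hanti.antitoneOn (hmem x) ⟨hab, le_rfl⟩ (hmem x).2
      linarith
  obtain ⟨e, he⟩ : ∃ e : ℝ ≃o ℝ, ∀ x, e x = F x :=
    ⟨hFm.orderIsoOfSurjective F hFs, fun x => rfl⟩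
  refine ⟨fun v => e.symm (-v), e.symm.continuous.comp continuous_neg, fun v hv1 hv2 => ?_⟩
  have hFa : e a = -f a := by
    rw [he, hF]
    simp only
    rw [hid a ⟨le_rfl, hab⟩]
    ring
  have hFb : e b = -f b := by
    rw [he, hF]
    simp only
    rw [hid b ⟨hab, le_rfl⟩]
    ring
  have h1 : a ≤ e.symm (-v) := by
    rw [e.le_symm_apply, hFa]
    linarith
  have h2 : e.symm (-v) ≤ b := by
    rw [e.symm_apply_le, hFb]
    linarith
  refine ⟨⟨h1, h2⟩, ?_⟩
  have h3 : e (e.symm (-v)) = -v := e.apply_symm_apply _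
  rw [he, hF] at h3
  simp only at h3
  rw [hid _ ⟨h1, h2⟩] at h3
  linarith

theorem t_S : S_S := by
  intro L R S a f h hP hR hRS ha haL hfa hdec hSL hkey
  have hS : 0 < S := hR.trans hRS
  have hfc : Continuous f := hP.smooth_f.continuous
  have hhc : Continuous h := hP.smooth_h.continuous
  have hfL : f L = 0 := by
    have := hP.f_odd_L 0
    simp only [add_zero, sub_zero] at this
    linarith
  have hanti : StrictAntiOn f (Icc a L) := by
    refine strictAntiOn_of_deriv_neg (convex_Icc a L) hfc.continuousOn fun x hx => ?_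
    rw [interior_Icc] at hx
    exact hdec x ⟨hx.1.le, hx.2.le⟩
  obtain ⟨δ, hδ, hδh⟩ : ∃ δ > 0, ∀ r, |r - L| < δ → S < h r := by
    have h1 : {r | S < h r} ∈ 𝓝 L := (isOpen_lt continuous_const hhc).mem_nhds hSL
    obtain ⟨δ, hδ, h2⟩ := Metric.mem_nhds_iff.1 h1
    exact ⟨δ, hδ, fun r hr => h2 (by rw [Metric.mem_ball, Real.dist_eq]; exact hr)⟩
  obtain ⟨b, hab, hbL, hbh⟩ : ∃ b, a < b ∧ b < L ∧ ∀ r ∈ Icc b L, S ≤ h r := by
    refine ⟨max ((a + L) / 2) (L - δ / 2), lt_max_of_lt_left (by linarith),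
      max_lt (by linarith) (by linarith), fun r hr => (hδh r ?_).le⟩
    have h1 := (le_max_right ((a + L) / 2) (L - δ / 2)).trans hr.1
    rw [abs_lt]
    constructor <;> linarith [hr.2]
  have hb0 : 0 < b := ha.trans hab
  have hfb : 0 < f b := hP.f_pos b hb0 hbL
  have hfba : f b ≤ f a := (hanti ⟨le_rfl, haL.le⟩ ⟨hab.le, hbL.le⟩ hab).le
  have hantib : StrictAntiOn f (Icc a b) := hanti.mono (Icc_subset_Icc le_rfl hbL.le)
  have hX : ∀ r ∈ Icc a L, S ^ 2 / 2 ≤ h r ^ 2 := by
    intro r hr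
    by_contra hcon
    push Not at hcon
    have h1 : S ^ 2 / 2 ≤ h L ^ 2 := by nlinarith
    obtain ⟨z, hz, hz'⟩ := intermediate_value_Icc hr.2 ((hhc.pow 2).continuousOn (s := Icc r L))
      ⟨hcon.le, h1⟩
    simp only [Pi.pow_apply] at hz'
    have h2 : r < z := by
      rcases hz.1.lt_or_eq with h3 | h3
      · exact h3
      · rw [← h3] at hz'
        linarith
    have h3 : f z < S / 2 := by
      rw [← hfa]
      exact hanti ⟨le_rfl, haL.le⟩ ⟨hr.1.trans hz.1, hz.2⟩ (hr.1.trans_lt h2)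
    have h4 : 0 ≤ f z := by
      rcases hz.2.lt_or_eq with h5 | h5
      · exact (hP.f_pos z (ha.trans_le (hr.1.trans hz.1)) h5).le
      · rw [h5, hfL]
    have h5 := hkey z ⟨hr.1.trans hz.1, hz.2⟩
    have h6 : h z ^ 4 = (S ^ 2 / 2) ^ 2 := by
      rw [← hz']
      ring
    rw [h6, hz'] at h5
    have h7 : f z ^ 2 < S ^ 2 / 4 := by nlinarith
    have h8 : 0 < S ^ 2 := by positivity
    nlinarith
  obtain ⟨g, hgc, hg⟩ := exists_inv hfc hab.le hantib
  obtain ⟨φ, hφ⟩ : ∃ φ : ℝ × ℝ → ℝ, φ = fun c => S * √(c.1 * KK c) / (c.1 + KK c) := ⟨_, rfl⟩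
  -- facts on K
  have hK : ∀ c : ℝ × ℝ, 0 < c.1 → 0 < c.2 → KK c ^ 2 = c.1 ^ 2 + c.2 ^ 2 ∧ c.1 < KK c ∧
      c.2 ≤ KK c := by
    intro c h1 h2
    have h3 : KK c ^ 2 = c.1 ^ 2 + c.2 ^ 2 := Real.sq_sqrt (by positivity)
    have h4 : 0 ≤ KK c := Real.sqrt_nonneg _
    refine ⟨h3, ?_, ?_⟩
    · by_contra hcon
      push Not at hcon
      nlinarith
    · by_contra hcon
      push Not at hcon
      nlinarith
  have hφ0 : ∀ c : ℝ × ℝ, 0 < c.1 → 0 < c.2 → 0 ≤ φ c ∧
      φ c ^ 2 * (c.1 + KK c) ^ 2 = S ^ 2 * (c.1 * KK c) ∧ φ c ≤ S / 2 := by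
    intro c h1 h2
    obtain ⟨h3, h4, h5⟩ := hK c h1 h2
    have hK0 : 0 < KK c := h1.trans h4
    have hT : 0 < c.1 + KK c := by linarith
    have h6 : √(c.1 * KK c) ^ 2 = c.1 * KK c := Real.sq_sqrt (by positivity)
    have h7 := Real.sqrt_nonneg (c.1 * KK c)
    rw [hφ]
    refine ⟨by positivity, ?_, ?_⟩
    · simp only
      rw [div_pow, mul_pow, h6]
      field_simp
    · simp only
      rw [div_le_iff₀ hT]
      have h8 : √(c.1 * KK c) ≤ (c.1 + KK c) / 2 := by
        refine Real.sqrt_le_iff.2 ⟨by linarith, ?_⟩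
        nlinarith [sq_nonneg (c.1 - KK c)]
      nlinarith
  have hφc : ContinuousOn φ {c | 0 < c.1 ∧ 0 < c.2} := by
    rw [hφ]
    have hKc : Continuous KK := by
      unfold KK
      exact Real.continuous_sqrt.comp ((continuous_fst.pow 2).add (continuous_snd.pow 2))
    refine ContinuousOn.div ?_ ?_ ?_
    · exact (continuous_const.mul (Real.continuous_sqrt.comp
        (continuous_fst.mul hKc))).continuousOn
    · exact (continuous_fst.add hKc).continuousOn
    · intro c hc
      have := (hK c hc.1 hc.2).2.1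
      have h1 := hc.1
      linarith
  have hsp : ∀ c : ℝ × ℝ, 0 < c.1 → 0 < c.2 → g (max (f b) (φ c)) ∈ Icc a b ∧
      f (g (max (f b) (φ c))) = max (f b) (φ c) := by
    intro c h1 h2
    refine hg _ (le_max_left _ _) (max_le hfba ?_)
    rw [hfa]
    exact (hφ0 c h1 h2).2.2
  have hinj : ∀ x ∈ Icc a b, f x = f b → x = b := fun x hx hx' =>
    hantib.injOn hx ⟨hab.le, le_rfl⟩ hx'
  refine ⟨fun c => g (max (f b) (φ c)), b, R ^ 2 / S ^ 2, f b ^ 2 / S ^ 2, hab, hbL, by positivity,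
    ?_, hbh, ?_, fun c h1 h2 => (hsp c h1 h2).1, ?_, ?_, ?_⟩
  · rw [div_lt_one (by positivity)]
    nlinarith
  · exact hgc.comp_continuousOn ((continuous_const.max continuous_id).comp_continuousOn hφc)
  · -- the effective potential
    intro c hc
    obtain ⟨h1, h2, hT⟩ := hc
    obtain ⟨h3, h4, h5⟩ := hK c h1 h2
    obtain ⟨hφ1, hφ2, hφ3⟩ := hφ0 c h1 h2
    obtain ⟨⟨hs1, hs2⟩, hs3⟩ := hsp c h1 h2
    set s := g (max (f b) (φ c))
    set K := KK c
    set T := c.1 + K with hTdef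
    have hK0 : 0 < K := h1.trans h4
    have hT0 : 0 < T := by linarith
    have hfs : 0 < f s := by
      rw [hs3]
      exact lt_max_of_lt_left hfb
    have hs0 : 0 < s := ha.trans_le hs1
    have hsL : s < L := hs2.trans_lt hbL
    have hhs : 0 < h s := hP.h_pos s hs0 hsL.le
    have hS2 : 0 < S ^ 2 := by positivity
    have hf2 : S ^ 2 * (c.1 * K) ≤ f s ^ 2 * T ^ 2 := by
      rw [← hφ2]
      have : φ c ≤ f s := by
        rw [hs3]
        exact le_max_right _ _
      gcongr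
    have hh2 : S ^ 2 * K ≤ h s ^ 2 * T := by
      rcases le_total (f b) (φ c) with hc | hc
      · rw [max_eq_right hc] at hs3
        have e1 : f s ^ 2 * T ^ 2 = S ^ 2 * (c.1 * K) := by rw [hs3, hφ2]
        have h6 := hkey s ⟨hs1, hsL.le⟩
        have h7 := hX s ⟨hs1, hsL.le⟩
        have h8 : 0 ≤ (h s ^ 2 * T - S ^ 2 * c.1) * (h s ^ 2 * T - S ^ 2 * K) := by
          have e2 : (h s ^ 2 * T - S ^ 2 * c.1) * (h s ^ 2 * T - S ^ 2 * K) =
              T ^ 2 * (h s ^ 4 - S ^ 2 * (h s ^ 2 - f s ^ 2)) := by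
            have e3 : T ^ 2 * (h s ^ 4 - S ^ 2 * (h s ^ 2 - f s ^ 2)) =
                T ^ 2 * h s ^ 4 - S ^ 2 * h s ^ 2 * T ^ 2 + S ^ 2 * (f s ^ 2 * T ^ 2) := by ring
            rw [e3, e1, hTdef]
            ring
          rw [e2]
          exact mul_nonneg (by positivity) (by linarith)
        have h9 : 0 < h s ^ 2 * T - S ^ 2 * c.1 := by
          have h10 : S ^ 2 / 2 * T ≤ h s ^ 2 * T := mul_le_mul_of_nonneg_right h7 hT0.le
          have h11 : S ^ 2 * c.1 < S ^ 2 / 2 * T := by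
            rw [hTdef]
            nlinarith
          linarith
        have h10 := nonneg_of_mul_nonneg_right h8 h9
        linarith
      · rw [max_eq_left hc] at hs3
        have e1 : s = b := hinj s ⟨hs1, hs2⟩ hs3
        have h6 : S ≤ h s := hbh s ⟨by rw [e1], hsL.le⟩
        have h7 : S ^ 2 ≤ h s ^ 2 := by nlinarith
        have h8 : K ≤ T := by linarith
        have h9 : S ^ 2 * K ≤ S ^ 2 * T := by nlinarith
        exact h9.trans (mul_le_mul_of_nonneg_right h7 hT0.le)
    have hA : (c.1 / f s) ^ 2 ≤ c.1 * T ^ 2 / (S ^ 2 * K) := by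
      rw [div_pow, div_le_div_iff₀ (by positivity) (by positivity)]
      nlinarith
    have hB : (c.2 / h s) ^ 2 ≤ (K - c.1) * T ^ 2 / (S ^ 2 * K) := by
      rw [div_pow, div_le_div_iff₀ (by positivity) (by positivity)]
      have e1 : c.2 ^ 2 = (K - c.1) * T := by
        rw [hTdef]
        linarith
      rw [e1]
      have h6 : 0 ≤ (K - c.1) * T := mul_nonneg (by linarith) hT0.le
      calc (K - c.1) * T * (S ^ 2 * K) ≤ (K - c.1) * T * (h s ^ 2 * T) :=
            mul_le_mul_of_nonneg_left hh2 h6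
        _ = (K - c.1) * T ^ 2 * h s ^ 2 := by ring
    unfold Veff
    have hsum : c.1 * T ^ 2 / (S ^ 2 * K) + (K - c.1) * T ^ 2 / (S ^ 2 * K) = T ^ 2 / S ^ 2 := by
      field_simp
      ring
    have hfin : T ^ 2 / S ^ 2 ≤ R ^ 2 / S ^ 2 := by
      have : T < R := hT
      gcongr
    linarith
  · intro c h1 h2
    rw [(hsp c h1 h2).2]
    refine le_trans (le_of_eq ?_) (le_max_right _ _)
    rw [hφ]
  · intro c h1 h2 h3
    obtain ⟨h4, h5, h6⟩ := hK c h1 h2
    obtain ⟨hφ1, hφ2, hφ3⟩ := hφ0 c h1 h2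
    have hK0 : 0 < KK c := h1.trans h5
    have hT : 0 < c.1 + KK c := by linarith
    have h7 : φ c ^ 2 ≤ f b ^ 2 := by
      have h8 : φ c ^ 2 * (c.1 + KK c) ^ 2 ≤ f b ^ 2 * (c.1 + KK c) ^ 2 := by
        rw [hφ2]
        have h9 : S ^ 2 * c.1 ≤ f b ^ 2 * c.2 := by
          have h10 : S ^ 2 * (f b ^ 2 / S ^ 2 * c.2) = f b ^ 2 * c.2 := by
            field_simp
          rw [← h10]
          exact mul_le_mul_of_nonneg_left h3 (by positivity)
        calc S ^ 2 * (c.1 * KK c) = S ^ 2 * c.1 * KK c := by ring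
          _ ≤ f b ^ 2 * c.2 * KK c := mul_le_mul_of_nonneg_right h9 hK0.le
          _ = f b ^ 2 * (c.2 * KK c) := by ring
          _ ≤ f b ^ 2 * (c.1 + KK c) ^ 2 := by
            refine mul_le_mul_of_nonneg_left ?_ (by positivity)
            nlinarith
      exact le_of_mul_le_mul_right h8 (by positivity)
    have h8 : φ c ≤ f b := by
      by_contra hcon
      push Not at hcon
      nlinarith
    obtain ⟨hs1, hs2⟩ := hsp c h1 h2
    refine hinj _ hs1 ?_
    rw [hs2, max_eq_left h8]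

end Pool.Agent.Helper44.CP
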