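import Pool.Agent.Helper60.CP.Stm
import Pool.Agent.H206R2.Rot.TA

/-!
# `ℂP^n` project: part T, the structure of the profiles near the hyperplane
-/

set_option autoImplicit false

open Real Set MeasureTheory Filter Topology
open scoped ContDiff

namespace Pool.Agent.Helper44.CP

open Pool.Agent.Helper60.CP

theorem t_T : S_T := by
  intro L R f h hP hR hcrit hRL hE
  have hL := hP.pos
  have hfc : Continuous f := hP.smooth_f.continuous
  have hhc : Continuous h := hP.smooth_h.continuous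
  have hfdc : Continuous (deriv f) := hP.smooth_f.continuous_deriv (by simp)
  have hhdc : Continuous (deriv h) := hP.smooth_h.continuous_deriv (by simp)
  have hf1 : ∀ x, HasDerivAt f (deriv f x) x := fun x =>
    (hP.smooth_f.differentiable (by norm_num)).differentiableAt.hasDerivAt
  have hh1 : ∀ x, HasDerivAt h (deriv h x) x := fun x =>
    (hP.smooth_h.differentiable (by norm_num)).differentiableAt.hasDerivAt
  have hfL : f L = 0 := by
    have := hP.f_odd_L 0
    simp only [add_zero, sub_zero] at this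
    linarith
  have hhL : 0 < h L := hP.h_pos L hL le_rfl
  have hdL : deriv h L = 0 := by
    have h2 : HasDerivAt (fun r => h (L + r)) (deriv h (L + 0)) 0 :=
      (hh1 (L + 0)).comp_const_add L 0
    have h3 : HasDerivAt (fun r => h (L - r)) (-deriv h (L - 0)) 0 :=
      (hh1 (L - 0)).comp_const_sub L 0
    have h4 : (fun r => h (L + r)) = fun r => h (L - r) := funext hP.h_even_L
    rw [h4] at h2
    have h5 := h2.unique h3
    rw [add_zero, sub_zero] at h5
    linarith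
  obtain ⟨S0, a0, b0, hS0, W⟩ := Pool.Agent.H206R2.Rot.TA.exists_wall
    (L := L) (f := f) ⟨hP.pos, hP.smooth_f, hP.f_odd, hP.f_odd_L, hP.f_pos, hP.f_deriv,
      hP.f_deriv_L⟩ (R₀ := R / 2) (by linarith) (fun r h0 h1 h2 => hcrit r ⟨h0, h1⟩ h2)
  have hb0 : 0 < b0 := W.apos.trans_le W.ab
  have hb0L : b0 < L := W.bL
  obtain ⟨E, hEd⟩ : ∃ E : ℝ → ℝ, E = fun r => (h r ^ 2 - 2 * f r ^ 2) * deriv h r +
    f r * deriv f r * h r := ⟨_, rfl⟩
  have hEc : Continuous E := by
    rw [hEd]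
    exact (((hhc.pow 2).sub (continuous_const.mul (hfc.pow 2))).mul hhdc).add
      ((hfc.mul hfdc).mul hhc)
  obtain ⟨w, hwd⟩ : ∃ w : ℝ → ℝ, w = fun r => (h r ^ 2 - f r ^ 2) / h r ^ 4 := ⟨_, rfl⟩
  have hwc : ∀ r, 0 < r → r ≤ L → ContinuousAt w r := by
    intro r h0 h1
    rw [hwd]
    have := hP.h_pos r h0 h1
    exact ((hhc.pow 2).sub (hfc.pow 2)).continuousAt.div (hhc.pow 4).continuousAt (by positivity)
  -- the set Z
  obtain ⟨Z, hZd⟩ : ∃ Z : Set ℝ, Z = {r | r ∈ Icc b0 L ∧ E r = 0 ∧ 2 * f r ^ 2 ≤ h r ^ 2} :=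
    ⟨_, rfl⟩
  have hZm : ∀ r, r ∈ Z ↔ r ∈ Icc b0 L ∧ E r = 0 ∧ 2 * f r ^ 2 ≤ h r ^ 2 := by
    intro r
    rw [hZd]
    rfl
  have hZc : IsCompact Z := by
    have : Z = Icc b0 L ∩ (E ⁻¹' {0} ∩ {r | 2 * f r ^ 2 ≤ h r ^ 2}) := by
      rw [hZd]
      rfl
    rw [this]
    exact isCompact_Icc.inter_right ((isClosed_singleton.preimage hEc).inter
      (isClosed_le (continuous_const.mul (hfc.pow 2)) (hhc.pow 2)))
  have hLZ : L ∈ Z := by
    rw [hZm]
    refine ⟨⟨hb0L.le, le_rfl⟩, ?_, ?_⟩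
    · rw [hEd]
      simp only
      rw [hdL, hfL]
      ring
    · rw [hfL]
      nlinarith
  obtain ⟨m, hmZ, hmmax⟩ := hZc.exists_isMaxOn ⟨L, hLZ⟩
    (fun r hr => (hwc r (hb0.trans_le ((hZm r).1 hr).1.1) ((hZm r).1 hr).1.2).continuousWithinAt)
  have hm := (hZm m).1 hmZ
  have hm0 : 0 < m := hb0.trans_le hm.1.1
  have hhm : 0 < h m := hP.h_pos m hm0 hm.1.2
  have hwm : R ^ 2 * (h m ^ 2 - f m ^ 2) < h m ^ 4 := by
    rcases hm.1.2.lt_or_eq with h1 | h1
    · refine hE m ⟨hm0, h1⟩ ?_ hm.2.2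
      have := hm.2.1
      rw [hEd] at this
      exact this
    · rw [h1, hfL]
      have h2 : R ^ 2 < h L ^ 2 := by nlinarith
      have h3 : 0 < h L ^ 2 := by positivity
      nlinarith
  -- the choice of S
  obtain ⟨S, hRS, hS2, hSL, hSm⟩ : ∃ S, R < S ∧ S < 2 * S0 ∧ S < h L ∧
      S ^ 2 * (h m ^ 2 - f m ^ 2) < h m ^ 4 := by
    have h1 : ∀ᶠ S in 𝓝 R, S < 2 * S0 := eventually_lt_nhds (by linarith)
    have h2 : ∀ᶠ S in 𝓝 R, S < h L := eventually_lt_nhds hRL
    have h3 : ∀ᶠ S in 𝓝 R, S ^ 2 * (h m ^ 2 - f m ^ 2) < h m ^ 4 := by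
      have hcont : Continuous fun S : ℝ => S ^ 2 * (h m ^ 2 - f m ^ 2) :=
        (continuous_pow 2).mul continuous_const
      exact (hcont.tendsto R).eventually_lt_const hwm
    have h4 : ∀ᶠ S in 𝓝[>] R, (S < 2 * S0 ∧ S < h L ∧ S ^ 2 * (h m ^ 2 - f m ^ 2) < h m ^ 4) ∧
        S ∈ Ioi R :=
      ((h1.and (h2.and h3)).filter_mono nhdsWithin_le_nhds).and self_mem_nhdsWithin
    obtain ⟨S, ⟨h5, h6, h7⟩, h8⟩ := h4.exists
    exact ⟨S, h8, h5, h6, h7⟩
  have hS0' : 0 < S := hR.trans hRS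
  have hwm' : w m < 1 / S ^ 2 := by
    rw [hwd]
    simp only
    rw [div_lt_div_iff₀ (by positivity) (by positivity)]
    linarith
  -- the point a
  obtain ⟨a, haI, hfa⟩ := intermediate_value_Icc' hb0L.le (hfc.continuousOn (s := Icc b0 L))
    (show S / 2 ∈ Icc (f L) (f b0) from ⟨by rw [hfL]; linarith, by rw [W.fb]; linarith⟩)
  have hab0 : b0 < a := by
    rcases haI.1.lt_or_eq with h1 | h1
    · exact h1
    · rw [← h1, W.fb] at hfa
      linarith
  have haL : a < L := by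
    rcases haI.2.lt_or_eq with h1 | h1
    · exact h1
    · rw [h1, hfL] at hfa
      linarith
  have ha0 : 0 < a := hb0.trans hab0
  have hdec : ∀ r ∈ Icc a L, deriv f r < 0 := fun r hr => W.dec r (hab0.le.trans hr.1) hr.2
  have hanti : StrictAntiOn f (Icc a L) := by
    refine strictAntiOn_of_deriv_neg (convex_Icc a L) hfc.continuousOn fun x hx => ?_
    rw [interior_Icc] at hx
    exact hdec x ⟨hx.1.le, hx.2.le⟩
  -- derivative of w
  have hwder : ∀ r, 0 < r → r ≤ L → HasDerivAt w (-2 * h r ^ 3 * E r / (h r ^ 4) ^ 2) r := by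
    intro r h0 h1
    have hp := hP.h_pos r h0 h1
    rw [hwd]
    have hne : h r ^ 4 ≠ 0 := by positivity
    refine ((((hh1 r).pow 2).sub ((hf1 r).pow 2)).div ((hh1 r).pow 4) hne).congr_deriv ?_
    rw [hEd]
    congr 1
    simp only [Pi.pow_apply, Pi.sub_apply]
    push_cast
    ring
  have hG : ∀ u, a ≤ u → u < L → (∀ r ∈ Ioc u L, 2 * f r ^ 2 ≤ h r ^ 2) → ∀ r ∈ Icc u L,
      w r ≤ w u ∨ w r < 1 / S ^ 2 := by
    intro u hau huL hu r hr
    obtain ⟨m2, hm2, hm2max⟩ := (isCompact_Icc (a := u) (b := L)).exists_isMaxOn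
      ⟨u, le_rfl, huL.le⟩ (f := w)
      (fun x hx => (hwc x (ha0.trans_le (hau.trans hx.1)) hx.2).continuousWithinAt)
    have h1 : w r ≤ w m2 := hm2max hr
    rcases hm2.1.lt_or_eq with h2 | h2
    · right
      have h3 : m2 ∈ Z := by
        rcases hm2.2.lt_or_eq with h4 | h4
        · rw [hZm]
          refine ⟨⟨hab0.le.trans (hau.trans hm2.1), hm2.2⟩, ?_, hu m2 ⟨h2, hm2.2⟩⟩
          have h5 : IsLocalMax w m2 := hm2max.isLocalMax (Icc_mem_nhds h2 h4)
          have h0' : 0 < m2 := ha0.trans_le (hau.trans hm2.1)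
          have h6 := h5.hasDerivAt_eq_zero (hwder m2 h0' hm2.2)
          have hp := hP.h_pos m2 h0' hm2.2
          rw [div_eq_zero_iff] at h6
          rcases h6 with h6 | h6
          · rcases mul_eq_zero.1 h6 with h7 | h7
            · exfalso
              have : (0 : ℝ) < h m2 ^ 3 := by positivity
              linarith
            · exact h7
          · exfalso
            have : (0 : ℝ) < (h m2 ^ 4) ^ 2 := by positivity
            linarith
        · rw [h4]
          exact hLZ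
      exact (h1.trans (hmmax h3)).trans_lt hwm'
    · left
      rw [h2]
      exact h1
  have hA : ∀ r ∈ Icc a L, 2 * f r ^ 2 < h r ^ 2 := by
    by_contra hcon
    push Not at hcon
    obtain ⟨r1, hr1, hr1'⟩ := hcon
    have hBc : IsCompact (Icc a L ∩ {r | h r ^ 2 ≤ 2 * f r ^ 2}) :=
      isCompact_Icc.inter_right (isClosed_le (hhc.pow 2) (continuous_const.mul (hfc.pow 2)))
    obtain ⟨r2, hr2, hr2max⟩ := hBc.exists_isMaxOn ⟨r1, hr1, hr1'⟩ continuousOn_id
    have hr2' : h r2 ^ 2 ≤ 2 * f r2 ^ 2 := hr2.2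
    have hr2L : r2 < L := by
      rcases hr2.1.2.lt_or_eq with h1 | h1
      · exact h1
      · rw [h1, hfL] at hr2'
        nlinarith
    have hr20 : 0 < r2 := ha0.trans_le hr2.1.1
    have hout : ∀ r ∈ Ioc r2 L, 2 * f r ^ 2 < h r ^ 2 := by
      intro r hr
      by_contra hcon
      push Not at hcon
      have : id r ≤ id r2 := hr2max ⟨⟨hr2.1.1.trans hr.1.le, hr.2⟩, hcon⟩
      exact absurd hr.1 (not_lt.2 this)
    have heq : h r2 ^ 2 = 2 * f r2 ^ 2 := by
      refine le_antisymm hr2' ?_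
      by_contra hcon
      push Not at hcon
      have h1 : ∀ᶠ r in 𝓝 r2, h r ^ 2 < 2 * f r ^ 2 :=
        (isOpen_lt (hhc.pow 2) (continuous_const.mul (hfc.pow 2))).mem_nhds hcon
      have h2 : ∀ᶠ r in 𝓝[>] r2, h r ^ 2 < 2 * f r ^ 2 ∧ r ∈ Ioo r2 L :=
        (h1.filter_mono nhdsWithin_le_nhds).and (Ioo_mem_nhdsGT hr2L)
      obtain ⟨r, h3, h4⟩ := h2.exists
      exact absurd h3 (not_lt.2 (hout r ⟨h4.1, h4.2.le⟩).le)
    have hfr2 : 0 < f r2 := hP.f_pos r2 hr20 hr2L
    have hhr2 : 0 < h r2 := hP.h_pos r2 hr20 hr2L.le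
    have hwr2 : 1 / S ^ 2 ≤ w r2 := by
      rw [hwd]
      simp only
      have e1 : h r2 ^ 4 = (2 * f r2 ^ 2) ^ 2 := by
        rw [← heq]
        ring
      rw [e1, heq, div_le_div_iff₀ (by positivity) (by positivity)]
      have h1 : f r2 ≤ S / 2 := by
        rw [← hfa]
        exact hanti.antitoneOn ⟨le_rfl, haL.le⟩ hr2.1 hr2.1.1
      have h2 : 4 * f r2 ^ 2 ≤ S ^ 2 := by nlinarith
      nlinarith [sq_nonneg (f r2), mul_le_mul_of_nonneg_left h2 (sq_nonneg (f r2))]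
    have hpos : 0 < -2 * h r2 ^ 3 * E r2 / (h r2 ^ 4) ^ 2 := by
      have e1 : E r2 = f r2 * deriv f r2 * h r2 := by
        rw [hEd]
        simp only
        rw [heq]
        ring
      have h1 := hdec r2 hr2.1
      rw [e1]
      refine div_pos ?_ (by positivity)
      have h2 : 0 < h r2 ^ 3 * (f r2 * h r2) := by positivity
      nlinarith
    have hslope := (hasDerivAt_iff_tendsto_slope.1 (hwder r2 hr20 hr2L.le)).eventually
      (lt_mem_nhds hpos)
    have h2 : ∀ᶠ r in 𝓝[>] r2, 0 < slope w r2 r ∧ r ∈ Ioo r2 L :=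
      (hslope.filter_mono (nhdsWithin_mono _ fun y hy => ne_of_gt hy)).and (Ioo_mem_nhdsGT hr2L)
    obtain ⟨y, h3, h4⟩ := h2.exists
    rw [slope_def_field] at h3
    have h5 : w r2 < w y := by
      have h6 : 0 < y - r2 := by linarith [h4.1]
      have h7 := (div_pos_iff_of_pos_right h6).1 h3
      linarith
    rcases hG r2 hr2.1.1 hr2L (fun r hr => (hout r hr).le) y ⟨h4.1.le, h4.2.le⟩ with h6 | h6
    · linarith
    · linarith
  refine ⟨S, a, hRS, ha0, haL, hfa, hdec, hSL, fun r hr => ?_⟩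
  have hr0 : 0 < r := ha0.trans_le hr.1
  have hhr : 0 < h r := hP.h_pos r hr0 hr.2
  have hfin : w r ≤ 1 / S ^ 2 := by
    rcases hG a le_rfl haL (fun r hr => (hA r ⟨hr.1.le, hr.2⟩).le) r hr with h1 | h1
    · refine h1.trans ?_
      rw [hwd]
      simp only
      have hha : 0 < h a := hP.h_pos a ha0 haL.le
      rw [hfa, div_le_div_iff₀ (by positivity) (by positivity)]
      nlinarith [sq_nonneg (h a ^ 2 - S ^ 2 / 2)]
    · exact h1.le
  rw [hwd] at hfin
  simp only at hfin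
  rw [div_le_div_iff₀ (by positivity) (by positivity)] at hfin
  linarith

end Pool.Agent.Helper44.CP
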